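import Pool.Agent.Y528.KL.Sizes

/-!
# Frege proofs of the Kneser-Lovász theorem: case B
-/

set_option autoImplicit false

namespace Pool.Agent.Y528.KL

open Pool.Agent.H555R2.PF Pool.Agent.H555R2.PF.Fm Pool.Agent.TH677.EF

namespace CaseB

variable {F : List Rule} {k n m M B : ℕ}

theorem psize_le {Γ : List Fm} {B : ℕ} (h : ∀ X ∈ Γ, X.size ≤ B) :
    psize Γ ≤ Γ.length * B := by
  induction Γ with
  | nil => simp [psize]
  | cons D Γ ih =>
    rw [psize_cons, List.length_cons]
    have h1 := h D (by simp)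
    have h2 := ih fun X hX => h X (by simp [hX])
    nlinarith

theorem AND_le {Γ : List Fm} {L B : ℕ} (h : ∀ X ∈ Γ, X.size ≤ B) (hl : Γ.length ≤ L) :
    (AND Γ).size ≤ L * (B + 1) + 3 := by
  rw [AND_size]
  have h1 := psize_le h
  have h2 : Γ.length * (B + 1) ≤ L * (B + 1) := Nat.mul_le_mul_right _ hl
  nlinarith

theorem OR_le {Γ : List Fm} {L B : ℕ} (h : ∀ X ∈ Γ, X.size ≤ B) (hl : Γ.length ≤ L) :
    (OR Γ).size ≤ L * (B + 1) + 4 := by
  rw [OR_size]
  have h1 := psize_le h
  have h2 : Γ.length * (B + 1) ≤ L * (B + 1) := Nat.mul_le_mul_right _ hl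
  nlinarith

/-- bounds for the sizes of the formulas that occur in case B -/
structure Bd (k n m B : ℕ) : Prop where
  low : ∀ x, (Low k n m x).size ≤ B
  adj : ∀ x y, (Adj k n m x y).size ≤ B
  ht : (HT k n m).size ≤ B
  hi : (HI k n m).size ≤ B
  nst : ∀ T, (nst k n m T).size ≤ B
  ind : ∀ I, (Ind k n m I).size ≤ B
  allU : ∀ I, (allof n (fun x => Uf k n m x) I).size ≤ B
  ex : ∀ v N, (exactly n (fun y => Adj k n m v y) N).size ≤ B
  orEx : ∀ v, (OR ((subsLt (Wk k) n).map fun N =>
    exactly n (fun y => Adj k n m v y) N)).size ≤ B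
  orAdj : ∀ I : Finset ℕ, (OR ((((List.range n).product (List.range n)).filter fun q =>
        q.1 ∈ I ∧ q.2 ∈ I ∧ q.1 ≠ q.2).map fun q => Adj k n m q.1 q.2)).size ≤ B
  andNL : ∀ C : Finset ℕ, (AND (((List.range n).filter fun x => x ∉ C).map fun x =>
    neg (Low k n m x))).size ≤ B
  orNNL : ∀ C : Finset ℕ, (OR (((List.range n).filter fun x => x ∉ C).map fun x =>
    neg (neg (Low k n m x)))).size ≤ B

section

variable (hG : Good F M) (hB : Bd k n m B) (hM : (k + 8) * (B + 3) + 3 + 10 * B + 100 ≤ M)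

include hG hB hM

/-- the case `|I| = k` -/
theorem base {e₃ : ℕ}
    (h3 : ∀ T : Finset ℕ, T ∈ subs k n →
    Sq F M [allof n (fun x => Uf k n m x) T, HT k n m, HI k n m]
      (OR ((((List.range n).product (List.range n)).filter fun q =>
        q.1 ∈ T ∧ q.2 ∈ T ∧ q.1 ≠ q.2).map fun q => Adj k n m q.1 q.2)) e₃)
    {I T : Finset ℕ} (hI : I ∈ subs k n) :
    Sq F M [Ind k n m I, nst k n m T, HT k n m, HI k n m] FF (e₃ + 60) := by
  set Γ : List Fm := [Ind k n m I, nst k n m T, HT k n m, HI k n m] with hΓ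
  have hsz : (AND Γ).size ≤ 4 * (B + 1) + 3 := by
    apply AND_le _ (by simp [hΓ])
    intro X hX
    simp only [hΓ, List.mem_cons, List.not_mem_nil, or_false] at hX
    rcases hX with rfl | rfl | rfl | rfl
    · exact hB.ind I
    · exact hB.nst T
    · exact hB.ht
    · exact hB.hi
  have hM' : 4 * (B + 1) + 3 + 10 * B + 100 ≤ M := by
    have : 4 * (B + 1) ≤ (k + 8) * (B + 3) := Nat.mul_le_mul (by omega) (by omega)
    omega
  have h1 : Sq F M Γ (Ind k n m I) 4 := Sq.hyp hG (by simp [hΓ]) (by
    have := hB.ind I; omega)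
  have h2 : Sq F M Γ (allof n (fun x => Low k n m x) I) 7 := Sq.andL hG h1
  have h4 : Sq F M Γ (AND ((((List.range n).product (List.range n)).filter fun q =>
      q.1 ∈ I ∧ q.2 ∈ I ∧ q.1 ≠ q.2).map fun q => neg (Adj k n m q.1 q.2))) 7 := Sq.andR hG h1
  have h5 : Sq F M Γ (allof n (fun x => Uf k n m x) I) 20 := by
    refine (Sq.ANDI hG (e := 15) (fun x hx => ?_) (by
      have := hB.allU I
      rw [allof] at this
      omega)).up hG (by omega)
    have h6 : Sq F M Γ (Low k n m x) (max 7 4 + 4) :=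
      Sq.ANDE (f := fun x => Low k n m x) hG h2 hx
    exact (Sq.andL hG h6).up hG (by omega)
  have h7 : Sq F M Γ (OR ((((List.range n).product (List.range n)).filter fun q =>
        q.1 ∈ I ∧ q.2 ∈ I ∧ q.1 ≠ q.2).map fun q => Adj k n m q.1 q.2)) (e₃ + 32) := by
    refine (Sq.ctx (a := 20) hG (h3 I hI) ?_ (by have := hB.orAdj I; omega)).up hG (by omega)
    intro X hX
    simp only [List.mem_cons, List.not_mem_nil, or_false] at hX
    rcases hX with rfl | rfl | rfl
    · exact h5
    · exact (Sq.hyp hG (by simp [hΓ]) (by have := hB.ht; omega)).up hG (by omega)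
    · exact (Sq.hyp hG (by simp [hΓ]) (by have := hB.hi; omega)).up hG (by omega)
  refine (Sq.ORE (b := 40) hG h7 ?_ (by rw [FF_size]; omega)).up hG (by omega)
  intro q hq
  have hA := hB.adj q.1 q.2
  have hsz2 : (AND (Adj k n m q.1 q.2 :: Γ)).size ≤ 4 * (B + 1) + 3 + B + 1 := by
    simp only [AND, Fm.size]; omega
  have h8 : Sq F M (Adj k n m q.1 q.2 :: Γ) (Adj k n m q.1 q.2) 4 :=
    Sq.hyp hG (by simp) (by omega)
  have h9 : Sq F M Γ (neg (Adj k n m q.1 q.2)) (max 7 4 + 4) :=
    Sq.ANDE (f := fun q : ℕ × ℕ => neg (Adj k n m q.1 q.2)) hG h4 hq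
  have h10 : Sq F M (Adj k n m q.1 q.2 :: Γ) (neg (Adj k n m q.1 q.2)) _ :=
    Sq.weak hG h9 (fun X hX => List.mem_cons_of_mem _ hX) (by
      simp only [Fm.size]; omega)
  exact (Sq.contraF hG h8 h10 (by omega)).up hG (by omega)

/-- adjacency is symmetric -/
theorem symm {Γ : List Fm} {e x v : ℕ} (h : Sq F M Γ (neg (Adj k n m v x)) e)
    (hs : (AND Γ).size + B + 2 ≤ M) : Sq F M Γ (neg (Adj k n m x v)) (e + 20) := by
  refine (Sq.NORI hG (e := e + 8) (fun s hs' => ?_) (by
    have := hB.adj x v
    rw [Adj] at this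
    omega)).up hG (by omega)
  obtain ⟨i, hh⟩ := s
  have hmem : i < m ∧ hh < 2 * k * k := by
    have := hs'
    simpa [slots, List.product, List.mem_flatMap] using this
  obtain ⟨h', hh', heq⟩ : ∃ h', h' < 2 * k * k ∧ inc k n i hh x v = inc k n i h' v x := by
    have h2 : 2 * k * k = 2 * (k * k) := by ring
    by_cases h0 : hh % 2 = 0
    · refine ⟨hh + 1, by omega, ?_⟩
      have e1 : (hh + 1) % 2 ≠ 0 := by omega
      have e2 : (hh + 1) / 2 = hh / 2 := by omega
      rw [inc, inc, if_pos h0, if_neg e1, e2]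
    · refine ⟨hh - 1, by omega, ?_⟩
      have e1 : (hh - 1) % 2 = 0 := by omega
      have e2 : (hh - 1) / 2 = hh / 2 := by omega
      rw [inc, inc, if_neg h0, if_pos e1, e2]
  show Sq F M Γ (neg (inc k n i hh x v)) (e + 8)
  rw [heq]
  have hm' : ((i, h') : ℕ × ℕ) ∈ slots k m := by
    simp only [slots, List.product, List.mem_flatMap, List.mem_map, List.mem_range]
    exact ⟨i, hmem.1, h', hh', rfl⟩
  have h3 := Sq.NORE (f := fun s : ℕ × ℕ => inc k n s.1 s.2 v x) hG h hm'
  exact h3.up hG (by omega)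

/-- the context of the inner induction -/
noncomputable def cx (k n m : ℕ) (I T : Finset ℕ) (L : List (ℕ × Finset ℕ)) : List Fm :=
  L.map (fun p => exactly n (fun y => Adj k n m p.1 y) p.2) ++
    [Ind k n m I, nst k n m T, HT k n m, HI k n m]

omit hG hM in
theorem cx_size {I T : Finset ℕ} {L : List (ℕ × Finset ℕ)} :
    ∀ X ∈ cx k n m I T L, X.size ≤ B + 2 := by
  intro X hX
  rw [cx, List.mem_append] at hX
  rcases hX with hX | hX
  · obtain ⟨p, -, rfl⟩ := List.mem_map.1 hX
    have := hB.ex p.1 p.2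
    exact this.trans (by omega)
  · simp only [List.mem_cons, List.not_mem_nil, or_false] at hX
    rcases hX with rfl | rfl | rfl | rfl
    · exact (hB.ind I).trans (by omega)
    · exact (hB.nst T).trans (by omega)
    · exact hB.ht.trans (by omega)
    · exact hB.hi.trans (by omega)

/-- all elements of `I` are in the list -/
theorem covered {e₂ eo : ℕ} {I T : Finset ℕ} {L : List (ℕ × Finset ℕ)}
    (h2 : ∀ C₀ T : Finset ℕ, C₀ ⊆ Finset.range n → T ⊆ Finset.range m →
      C₀.card * Wk k ≤ T.card → T.card ≤ TT k →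
      Sq F M [AND (((List.range n).filter fun x => x ∉ C₀).map fun x => neg (Low k n m x)),
        nst k n m T] FF e₂)
    (hT : T ∈ subs (TT k) m) (hI : I ⊆ Finset.range n) (hIk : I.card < k)
    (hnext : ∀ I' : Finset ℕ, I' ⊆ Finset.range n → I'.card = I.card + 1 →
      Sq F M [Ind k n m I', nst k n m T, HT k n m, HI k n m] FF eo)
    (hcov : ∀ v ∈ I, ∃ N, (v, N) ∈ L) (hL : ∀ p ∈ L, p.1 ∈ I ∧ p.2 ∈ subsLt (Wk k) n)
    (hlen : L.length ≤ I.card) :
    Sq F M (cx k n m I T L) FF (max e₂ eo + 200) := by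
  classical
  have hTm : T ⊆ Finset.range m ∧ T.card = TT k := by
    rw [subs, Finset.mem_toList, Finset.mem_powersetCard] at hT
    exact hT
  have hLN : ∀ p ∈ L, p.2 ⊆ Finset.range n ∧ p.2.card < Wk k := by
    intro p hp
    have := (hL p hp).2
    rw [subsLt, Finset.mem_toList, Finset.mem_filter, Finset.mem_powerset] at this
    exact this
  set C₀ : Finset ℕ := I ∪ L.toFinset.biUnion Prod.snd with hC₀
  have hC1 : C₀ ⊆ Finset.range n := by
    apply Finset.union_subset hI
    rw [Finset.biUnion_subset]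
    intro p hp
    exact (hLN p (List.mem_toFinset.1 hp)).1
  have hW : 1 ≤ Wk k := by rw [Wk]; omega
  have hC2 : C₀.card ≤ k * Wk k := by
    have h1 : (L.toFinset.biUnion Prod.snd).card ≤ L.toFinset.card * (Wk k - 1) := by
      apply Finset.card_biUnion_le_card_mul
      intro p hp
      have := (hLN p (List.mem_toFinset.1 hp)).2
      omega
    have h2 : L.toFinset.card ≤ I.card := (List.toFinset_card_le L).trans hlen
    have h3 : L.toFinset.card * (Wk k - 1) ≤ I.card * (Wk k - 1) := Nat.mul_le_mul_right _ h2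
    have h4 := Finset.card_union_le I (L.toFinset.biUnion Prod.snd)
    have h5 : I.card + I.card * (Wk k - 1) = I.card * Wk k := by
      conv_rhs => rw [show Wk k = 1 + (Wk k - 1) by omega]
      ring
    have h6 : I.card * Wk k ≤ k * Wk k := Nat.mul_le_mul_right _ hIk.le
    rw [hC₀]
    omega
  have hC3 : C₀.card * Wk k ≤ T.card := by
    rw [hTm.2, TT]
    calc C₀.card * Wk k ≤ (k * Wk k) * Wk k := Nat.mul_le_mul_right _ hC2
      _ ≤ k * (Wk k + 1) * Wk k := by
        apply Nat.mul_le_mul_right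
        apply Nat.mul_le_mul_left
        omega
  have hlen2 : (cx k n m I T L).length ≤ k + 4 := by
    rw [cx, List.length_append, List.length_map]
    simp only [List.length_cons, List.length_nil]
    omega
  set Γ := cx k n m I T L with hΓ
  have hΓs : ∀ X ∈ Γ, X.size ≤ B + 2 := cx_size hB
  set X := AND (((List.range n).filter fun x => x ∉ C₀).map fun x => neg (Low k n m x)) with hX
  have hXs : X.size ≤ B := hB.andNL C₀
  have hs0 : ∀ Δ : List Fm, (∀ Y ∈ Δ, Y.size ≤ B + 2) → Δ.length ≤ 4 →
      (AND (Δ ++ Γ)).size ≤ (k + 8) * (B + 3) + 3 := by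
    intro Δ hΔ hl
    apply AND_le
    · intro Y hY
      rcases List.mem_append.1 hY with hY | hY
      · exact hΔ Y hY
      · exact hΓs Y hY
    · rw [List.length_append]
      omega
  have memI : Ind k n m I ∈ Γ := by rw [hΓ, cx]; simp
  have memn : nst k n m T ∈ Γ := by rw [hΓ, cx]; simp
  have memT : HT k n m ∈ Γ := by rw [hΓ, cx]; simp
  have memH : HI k n m ∈ Γ := by rw [hΓ, cx]; simp
  refine (Sq.cases (X := X) (a := e₂ + 18) (b := eo + 190) hG ?_ ?_).up hG (by omega)
  · have hs1 : (AND (X :: Γ)).size ≤ (k + 8) * (B + 3) + 3 :=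
      hs0 [X] (by intro Y hY; simp at hY; rw [hY]; omega) (by simp)
    refine (Sq.weak hG (h2 C₀ T hC1 hTm.1 hC3 hTm.2.le) ?_ (by rw [FF_size]; omega)).up hG
      (by omega)
    intro Y hY
    simp only [List.mem_cons, List.not_mem_nil, or_false] at hY
    rcases hY with rfl | rfl
    · exact List.mem_cons.2 (Or.inl rfl)
    · exact List.mem_cons.2 (Or.inr memn)
  · have hXs2 := hB.andNL C₀
    have hs1 : (AND (neg X :: Γ)).size ≤ (k + 8) * (B + 3) + 3 :=
      hs0 [neg X] (by intro Y hY; simp at hY; rw [hY]; simp only [Fm.size]; omega) (by simp)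
    have g1 : Sq F M (neg X :: Γ) (neg X) 4 := Sq.hyp hG (by simp) (by
      simp only [Fm.size]; omega)
    have hO := hB.orNNL C₀
    have g2 : Sq F M (neg X :: Γ) (OR (((List.range n).filter fun x => x ∉ C₀).map fun x =>
        neg (neg (Low k n m x)))) (4 + 40) :=
      Sq.NANDE (f := fun x => neg (Low k n m x)) hG g1 (by omega)
    refine (Sq.ORE (b := eo + 170) hG g2 ?_ (by rw [FF_size]; omega)).up hG (by omega)
    intro x hx
    have hx' : x < n ∧ x ∉ C₀ := by simpa using hx
    have hxI : x ∉ I := fun h => hx'.2 (Finset.mem_union_left _ h)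
    set Γ3 := neg (neg (Low k n m x)) :: neg X :: Γ with hΓ3
    have hlow := hB.low x
    have hs3 : (AND Γ3).size ≤ (k + 8) * (B + 3) + 3 :=
      hs0 [neg (neg (Low k n m x)), neg X] (by
        intro Y hY
        simp only [List.mem_cons, List.not_mem_nil, or_false] at hY
        rcases hY with rfl | rfl
        · simp only [Fm.size]; omega
        · simp only [Fm.size]; omega) (by simp)
    have mem3 : ∀ Y ∈ Γ, Y ∈ Γ3 := fun Y hY => by rw [hΓ3]; simp [hY]
    have l1 : Sq F M Γ3 (neg (neg (Low k n m x))) 4 := Sq.hyp hG (by simp [hΓ3]) (by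
      simp only [Fm.size]; omega)
    have l2 : Sq F M Γ3 (Low k n m x) 7 := Sq.dneg hG l1
    have i1 : Sq F M Γ3 (Ind k n m I) 4 := Sq.hyp hG (mem3 _ memI) (by
      have := hB.ind I; omega)
    have i2 : Sq F M Γ3 (allof n (fun x => Low k n m x) I) 7 := Sq.andL hG i1
    have i3 : Sq F M Γ3 (AND ((((List.range n).product (List.range n)).filter fun q =>
      q.1 ∈ I ∧ q.2 ∈ I ∧ q.1 ≠ q.2).map fun q => neg (Adj k n m q.1 q.2))) 7 := Sq.andR hG i1
    have hvx : ∀ v ∈ I, Sq F M Γ3 (neg (Adj k n m v x)) 8 := by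
      intro v hv
      obtain ⟨N, hN⟩ := hcov v hv
      have hxN : x ∉ N := fun h => hx'.2 (Finset.mem_union_right _
        (Finset.mem_biUnion.2 ⟨(v, N), List.mem_toFinset.2 hN, h⟩))
      have e1 : Sq F M Γ3 (exactly n (fun y => Adj k n m v y) N) 4 := by
        refine Sq.hyp hG (mem3 _ ?_) (by have := hB.ex v N; omega)
        rw [hΓ, cx]
        exact List.mem_append_left _ (List.mem_map.2 ⟨(v, N), hN, rfl⟩)
      have e2 := Sq.ANDE (f := fun y => if y ∈ N then Adj k n m v y else neg (Adj k n m v y))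
        hG e1 (x := x) (List.mem_range.2 hx'.1)
      simp only [if_neg hxN] at e2
      exact e2.up hG (by omega)
    have hxv : ∀ v ∈ I, Sq F M Γ3 (neg (Adj k n m x v)) 28 := by
      intro v hv
      exact symm hG hB hM (hvx v hv) (by omega)
    have hi := hB.ind (insert x I)
    rw [Ind] at hi
    simp only [Fm.size] at hi
    have j1 : Sq F M Γ3 (allof n (fun x => Low k n m x) (insert x I)) 30 := by
      refine (Sq.ANDI hG (e := 25) (fun y hy => ?_) (by
        rw [allof] at hi
        omega)).up hG (by omega)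
      have hy' : y < n ∧ (y = x ∨ y ∈ I) := by simpa using hy
      rcases hy'.2 with rfl | hyI
      · exact l2.up hG (by omega)
      · have := Sq.ANDE (f := fun x => Low k n m x) hG i2 (x := y) (by simp [hy'.1, hyI])
        exact this.up hG (by omega)
    have j2 : Sq F M Γ3 (AND ((((List.range n).product (List.range n)).filter fun q =>
      q.1 ∈ insert x I ∧ q.2 ∈ insert x I ∧ q.1 ≠ q.2).map fun q =>
        neg (Adj k n m q.1 q.2))) 40 := by
      refine (Sq.ANDI hG (e := 35) (fun q hq => ?_) (by omega)).up hG (by omega)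
      obtain ⟨q1, q2⟩ := q
      have hq' : (q1 < n ∧ q2 < n) ∧ (q1 = x ∨ q1 ∈ I) ∧ (q2 = x ∨ q2 ∈ I) ∧
          q1 ≠ q2 := by
        simpa [List.product] using hq
      obtain ⟨⟨hq1, hq2⟩, ha, hb, hne⟩ := hq'
      show Sq F M Γ3 (neg (Adj k n m q1 q2)) 35
      rcases ha with ha | ha
      · rcases hb with hb | hb
        · exact absurd (ha.trans hb.symm) hne
        · rw [ha]
          exact (hxv _ hb).up hG (by omega)
      · rcases hb with hb | hb
        · rw [hb]
          exact (hvx _ ha).up hG (by omega)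
        · have := Sq.ANDE (f := fun q : ℕ × ℕ => neg (Adj k n m q.1 q.2)) hG i3
            (x := (q1, q2)) (by
              simp [List.product, hq1, hq2, ha, hb, hne])
          exact this.up hG (by omega)
    have j3 : Sq F M Γ3 (Ind k n m (insert x I)) 44 :=
      (Sq.andI hG j1 j2 (by omega)).up hG (by omega)
    refine (Sq.ctx (a := 44) hG (hnext (insert x I) ?_ ?_) ?_ (by
      rw [FF_size]; omega)).up hG (by omega)
    · rw [Finset.insert_subset_iff]
      exact ⟨Finset.mem_range.2 hx'.1, hI⟩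
    · rw [Finset.card_insert_of_notMem hxI]
    · intro Y hY
      simp only [List.mem_cons, List.not_mem_nil, or_false] at hY
      rcases hY with rfl | rfl | rfl | rfl
      · exact j3
      · exact (Sq.hyp hG (mem3 _ memn) (by have := hB.nst T; omega)).up hG (by omega)
      · exact (Sq.hyp hG (mem3 _ memT) (by have := hB.ht; omega)).up hG (by omega)
      · exact (Sq.hyp hG (mem3 _ memH) (by have := hB.hi; omega)).up hG (by omega)

/-- the inner induction -/
theorem inner {e₂ eo eS : ℕ} {I T : Finset ℕ}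
    (h2 : ∀ C₀ T : Finset ℕ, C₀ ⊆ Finset.range n → T ⊆ Finset.range m →
      C₀.card * Wk k ≤ T.card → T.card ≤ TT k →
      Sq F M [AND (((List.range n).filter fun x => x ∉ C₀).map fun x => neg (Low k n m x)),
        nst k n m T] FF e₂)
    (hS : ∀ v, Sq F M [] (or (OR ((subs (Wk k) n).map fun N => allof n (fun y => Adj k n m v y) N))
      (OR ((subsLt (Wk k) n).map fun N => exactly n (fun y => Adj k n m v y) N))) eS)
    (hT : T ∈ subs (TT k) m) (hI : I ⊆ Finset.range n) (hIk : I.card < k)
    (hnext : ∀ I' : Finset ℕ, I' ⊆ Finset.range n → I'.card = I.card + 1 →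
      Sq F M [Ind k n m I', nst k n m T, HT k n m, HI k n m] FF eo) :
    ∀ (r : ℕ) (L : List (ℕ × Finset ℕ)), (L.map Prod.fst).Nodup →
      (∀ p ∈ L, p.1 ∈ I ∧ p.2 ∈ subsLt (Wk k) n) → L.length + r = I.card →
      Sq F M (cx k n m I T L) FF (max e₂ eo + 200 + r * (eS + 100)) := by
  classical
  intro r
  induction r with
  | zero =>
    intro L hnd hL hlen
    have hsub : (L.map Prod.fst).toFinset ⊆ I := by
      intro v hv
      obtain ⟨p, hp, rfl⟩ := List.mem_map.1 (List.mem_toFinset.1 hv)
      exact (hL p hp).1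
    have hcard : (L.map Prod.fst).toFinset.card = I.card := by
      rw [List.toFinset_card_of_nodup hnd, List.length_map]
      omega
    have heq := Finset.eq_of_subset_of_card_le hsub hcard.ge
    refine (covered hG hB hM h2 hT hI hIk hnext ?_ hL (by omega)).up hG (by omega)
    intro v hv
    rw [← heq, List.mem_toFinset] at hv
    obtain ⟨p, hp, rfl⟩ := List.mem_map.1 hv
    exact ⟨p.2, hp⟩
  | succ r ih =>
    intro L hnd hL hlen
    obtain ⟨v, hv, hvL⟩ : ∃ v ∈ I, v ∉ L.map Prod.fst := by
      by_contra hcon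
      push Not at hcon
      have hsub : I ⊆ (L.map Prod.fst).toFinset := fun v hv => List.mem_toFinset.2 (hcon v hv)
      have := Finset.card_le_card hsub
      have h2 := List.toFinset_card_le (L.map Prod.fst)
      rw [List.length_map] at h2
      omega
    have hlen2 : (cx k n m I T L).length ≤ k + 4 := by
      rw [cx, List.length_append, List.length_map]
      simp only [List.length_cons, List.length_nil]
      omega
    have memI : Ind k n m I ∈ cx k n m I T L := by rw [cx]; simp
    have hΓs : ∀ X ∈ cx k n m I T L, X.size ≤ B + 2 := cx_size hB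
    have hcons : ∀ N, cx k n m I T ((v, N) :: L) =
        exactly n (fun y => Adj k n m v y) N :: cx k n m I T L := fun N => rfl
    generalize hΓ : cx k n m I T L = Γ at *
    have hs0 : ∀ Δ : List Fm, (∀ Y ∈ Δ, Y.size ≤ B + 2) → Δ.length ≤ 4 →
        (AND (Δ ++ Γ)).size ≤ (k + 8) * (B + 3) + 3 := by
      intro Δ hΔ hl
      apply AND_le
      · intro Y hY
        rcases List.mem_append.1 hY with hY | hY
        · exact hΔ Y hY
        · exact hΓs Y hY
      · rw [List.length_append]
        omega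
    have hsΓ : (AND Γ).size ≤ (k + 8) * (B + 3) + 3 := hs0 [] (by simp) (by simp)
    have hvn : v < n := Finset.mem_range.1 (hI hv)
    have i1 : Sq F M Γ (Ind k n m I) 4 := Sq.hyp hG memI (by
      have := hB.ind I; omega)
    have i2 : Sq F M Γ (allof n (fun x => Low k n m x) I) 7 := Sq.andL hG i1
    have i3 : Sq F M Γ (Low k n m v) 11 :=
      (Sq.ANDE (f := fun x => Low k n m x) hG i2 (x := v) (by simp [hvn, hv])).up hG (by omega)
    have i4 : Sq F M Γ (neg (High k n m v)) 14 := Sq.andR hG i3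
    have hlow := hB.low v
    rw [Low] at hlow
    simp only [Fm.size] at hlow
    have hor := hB.orEx v
    have hhigh : OR ((subs (Wk k) n).map fun N => allof n (fun y => Adj k n m v y) N) =
        High k n m v := rfl
    have hs := hS v
    rw [hhigh] at hs
    have s1 : Sq F M Γ (or (High k n m v)
        (OR ((subsLt (Wk k) n).map fun N => exactly n (fun y => Adj k n m v y) N)))
        (max eS 13 + 5) := by
      refine Sq.weak hG hs (by simp) ?_
      simp only [Fm.size]
      omega
    set O := OR ((subsLt (Wk k) n).map fun N => exactly n (fun y => Adj k n m v y) N) with hO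
    have hsH : (AND (High k n m v :: Γ)).size ≤ (k + 8) * (B + 3) + 3 :=
      hs0 [High k n m v] (by intro Y hY; simp at hY; rw [hY]; omega) (by simp)
    have hsO : (AND (O :: Γ)).size ≤ (k + 8) * (B + 3) + 3 :=
      hs0 [O] (by intro Y hY; simp at hY; rw [hY]; omega) (by simp)
    have c1 : Sq F M (High k n m v :: Γ) FF 30 := by
      have g1 : Sq F M (High k n m v :: Γ) (High k n m v) 4 := Sq.hyp hG (by simp) (by omega)
      have g2 : Sq F M (High k n m v :: Γ) (neg (High k n m v)) (max 14 13 + 5) :=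
        Sq.weak hG i4 (fun Y hY => List.mem_cons_of_mem _ hY) (by
          simp only [Fm.size]; omega)
      exact (Sq.contraF hG g1 g2 (by omega)).up hG (by omega)
    have c2 : Sq F M (O :: Γ) FF (max e₂ eo + 200 + r * (eS + 100) + 40) := by
      have g1 : Sq F M (O :: Γ) O 4 := Sq.hyp hG (by simp) (by omega)
      refine (Sq.ORE (b := max e₂ eo + 200 + r * (eS + 100) + 20) hG g1 ?_ (by
        rw [FF_size]; omega)).up hG (by omega)
      intro N hN
      have g2 := ih ((v, N) :: L) (by
        rw [List.map_cons, List.nodup_cons]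
        exact ⟨hvL, hnd⟩) (by
        intro p hp
        rcases List.mem_cons.1 hp with rfl | hp
        · exact ⟨hv, hN⟩
        · exact hL p hp) (by rw [List.length_cons]; omega)
      rw [hcons] at g2
      have hex := hB.ex v N
      have hsE : (AND (exactly n (fun y => Adj k n m v y) N :: O :: Γ)).size ≤
          (k + 8) * (B + 3) + 3 :=
        hs0 [exactly n (fun y => Adj k n m v y) N, O] (by
          intro Y hY
          simp only [List.mem_cons, List.not_mem_nil, or_false] at hY
          rcases hY with rfl | rfl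
          · omega
          · omega) (by simp)
      refine (Sq.weak hG g2 ?_ (by rw [FF_size]; omega)).up hG (by omega)
      intro Y hY
      rcases List.mem_cons.1 hY with rfl | hY
      · simp
      · simp [hY]
    refine (Sq.orE hG s1 c1 c2).up hG ?_
    have : (r + 1) * (eS + 100) = r * (eS + 100) + (eS + 100) := by ring
    rw [this]
    generalize r * (eS + 100) = R
    omega

/-- the outer induction -/
theorem outer {e₂ e₃ eS : ℕ} {T : Finset ℕ}
    (h2 : ∀ C₀ T : Finset ℕ, C₀ ⊆ Finset.range n → T ⊆ Finset.range m →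
      C₀.card * Wk k ≤ T.card → T.card ≤ TT k →
      Sq F M [AND (((List.range n).filter fun x => x ∉ C₀).map fun x => neg (Low k n m x)),
        nst k n m T] FF e₂)
    (h3 : ∀ T : Finset ℕ, T ∈ subs k n →
    Sq F M [allof n (fun x => Uf k n m x) T, HT k n m, HI k n m]
      (OR ((((List.range n).product (List.range n)).filter fun q =>
        q.1 ∈ T ∧ q.2 ∈ T ∧ q.1 ≠ q.2).map fun q => Adj k n m q.1 q.2)) e₃)
    (hS : ∀ v, Sq F M [] (or (OR ((subs (Wk k) n).map fun N => allof n (fun y => Adj k n m v y) N))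
      (OR ((subsLt (Wk k) n).map fun N => exactly n (fun y => Adj k n m v y) N))) eS)
    (hT : T ∈ subs (TT k) m) :
    ∀ (t : ℕ) (I : Finset ℕ), I ⊆ Finset.range n → I.card + t = k →
      Sq F M [Ind k n m I, nst k n m T, HT k n m, HI k n m] FF
        (e₂ + e₃ + 60 + t * (200 + k * (eS + 100))) := by
  intro t
  induction t with
  | zero =>
    intro I hI hc
    refine (base hG hB hM h3 (I := I) (T := T) ?_).up hG (by omega)
    rw [subs, Finset.mem_toList, Finset.mem_powersetCard]
    exact ⟨hI, by omega⟩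
  | succ t ih =>
    intro I hI hc
    have h := inner hG hB hM h2 hS hT hI (by omega) (fun I' hI' hc' => ih I' hI' (by omega))
      I.card [] (by simp) (by simp) (by simp)
    have h' : cx k n m I T [] = [Ind k n m I, nst k n m T, HT k n m, HI k n m] := rfl
    rw [h'] at h
    refine h.up hG ?_
    have h1 : I.card * (eS + 100) ≤ k * (eS + 100) := Nat.mul_le_mul_right _ (by omega)
    have h2 : (t + 1) * (200 + k * (eS + 100)) =
        t * (200 + k * (eS + 100)) + (200 + k * (eS + 100)) := by ring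
    rw [h2]
    generalize t * (200 + k * (eS + 100)) = R at *
    generalize k * (eS + 100) = S at *
    generalize I.card * (eS + 100) = S' at *
    omega

/-- case B, all bounds given -/
theorem final {e₂ e₃ eS : ℕ} {T : Finset ℕ}
    (h2 : ∀ C₀ T : Finset ℕ, C₀ ⊆ Finset.range n → T ⊆ Finset.range m →
      C₀.card * Wk k ≤ T.card → T.card ≤ TT k →
      Sq F M [AND (((List.range n).filter fun x => x ∉ C₀).map fun x => neg (Low k n m x)),
        nst k n m T] FF e₂)
    (h3 : ∀ T : Finset ℕ, T ∈ subs k n →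
    Sq F M [allof n (fun x => Uf k n m x) T, HT k n m, HI k n m]
      (OR ((((List.range n).product (List.range n)).filter fun q =>
        q.1 ∈ T ∧ q.2 ∈ T ∧ q.1 ≠ q.2).map fun q => Adj k n m q.1 q.2)) e₃)
    (hS : ∀ v, Sq F M [] (or (OR ((subs (Wk k) n).map fun N => allof n (fun y => Adj k n m v y) N))
      (OR ((subsLt (Wk k) n).map fun N => exactly n (fun y => Adj k n m v y) N))) eS)
    (hT : T ∈ subs (TT k) m) :
    Sq F M [nst k n m T, HT k n m, HI k n m] FF
        (e₂ + e₃ + 60 + k * (200 + k * (eS + 100)) + 30) := by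
  have h := outer hG hB hM h2 h3 hS hT k ∅ (by simp) (by simp)
  set Γ : List Fm := [nst k n m T, HT k n m, HI k n m] with hΓ
  have hM' : 4 * (B + 1) + 3 + 10 * B + 100 ≤ M := by
    have : 4 * (B + 1) ≤ (k + 8) * (B + 3) := Nat.mul_le_mul (by omega) (by omega)
    omega
  have hsz : (AND Γ).size ≤ 3 * (B + 1) + 3 := by
    apply AND_le _ (by simp [hΓ])
    intro X hX
    simp only [hΓ, List.mem_cons, List.not_mem_nil, or_false] at hX
    rcases hX with rfl | rfl | rfl
    · exact hB.nst T
    · exact hB.ht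
    · exact hB.hi
  have hi := hB.ind ∅
  rw [Ind] at hi
  simp only [Fm.size] at hi
  have j1 : Sq F M Γ (allof n (fun x => Low k n m x) ∅) 10 := by
    refine (Sq.ANDI hG (e := 5) (fun y hy => ?_) (by
      rw [allof] at hi
      omega)).up hG (by omega)
    simp at hy
  have j2 : Sq F M Γ (AND ((((List.range n).product (List.range n)).filter fun q =>
      q.1 ∈ (∅ : Finset ℕ) ∧ q.2 ∈ (∅ : Finset ℕ) ∧ q.1 ≠ q.2).map fun q =>
        neg (Adj k n m q.1 q.2))) 10 := by
    refine (Sq.ANDI hG (e := 5) (fun q hq => ?_) (by omega)).up hG (by omega)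
    simp at hq
  have j3 : Sq F M Γ (Ind k n m ∅) 14 := (Sq.andI hG j1 j2 (by omega)).up hG (by omega)
  exact (Sq.cut hG j3 h).up hG (by omega)

end

theorem bd {c : ℕ} (hm : m ≤ n) (hc : 4 * k * k + 2 * k + 60 ≤ c) :
    Bd k n m ((n + 2) ^ c) where
  low x := (Low_pow hm x).trans (pw_mono n (by omega))
  adj x y := (Adj_pow hm x y).trans (pw_mono n (by nlinarith))
  ht := (HT_pow hm).trans (pw_mono n (by nlinarith))
  hi := (HI_pow hm).trans (pw_mono n (by nlinarith))
  nst T := (nst_pow hm T).trans (pw_mono n (by nlinarith))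
  ind I := (Ind_pow hm I).trans (pw_mono n (by omega))
  allU I := allof_pow (b := k + 13) (fun y _ => Uf_pow hm y) I (by nlinarith)
  ex v N := exactly_pow (b := 2 * k * k + 2 * k + 17) (fun y _ => Adj_pow hm v y) N
    (by nlinarith)
  orEx v := OR_pow (a := Wk k) (b := 2 * k * k + 2 * k + 22) (subsLt_length _ n)
    (fun N _ => exactly_pow (fun y _ => Adj_pow hm v y) N le_rfl) (by unfold Wk; nlinarith)
  orAdj I := OR_pow (a := 2) (b := 2 * k * k + 2 * k + 17) (pairs_length n _)
    (fun q _ => Adj_pow hm _ _) (by nlinarith)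
  andNL C := AND_pow (a := 1) (b := 4 * k * k + 2 * k + 29)
    ((List.length_filter_le _ _).trans (range_length_le le_rfl))
    (fun x _ => neg_pow (Low_pow hm x) (by omega)) (by omega)
  orNNL C := OR_pow (a := 1) (b := 4 * k * k + 2 * k + 30)
    ((List.length_filter_le _ _).trans (range_length_le le_rfl))
    (fun x _ => neg_pow (neg_pow (Low_pow hm x) le_rfl) (by omega)) (by omega)

end CaseB

open CaseB in
/-- **Case B.** -/
theorem t_b (F : List Rule) (k : ℕ) (h1 : T_B2 F k) (h2 : T_F3 F k) (h3 : T_SS F (Wk k)) :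
    T_B F k := by
  intro hk
  obtain ⟨e₂, K₂, h1⟩ := h1 hk
  obtain ⟨e₃, K₃, h2⟩ := h2 hk
  obtain ⟨eS, KS, h3⟩ := h3
  set c := 4 * k * k + 2 * k + 60 with hc
  refine ⟨e₂ + e₃ + 60 + k * (200 + k * (eS + 100)) + 30, K₂ + K₃ + KS + c + 4 * k + 200,
    fun n m M hnm hG hM T hT => ?_⟩
  have hm : m ≤ n := by omega
  have hB := bd (c := c) hm le_rfl
  have hK : ∀ a : ℕ, a ≤ K₂ + K₃ + KS + c + 4 * k + 200 → (n + 2) ^ a ≤ M := fun a ha =>
    (pw_mono n ha).trans hM
  have h4 := h1 n m M hnm hG (hK _ (by omega))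
  have h5 := h2 n m M hnm hG (hK _ (by omega))
  have hB1 : 1 ≤ (n + 2) ^ c := pw_pos n c
  have hM1 : (k + 8) * ((n + 2) ^ c + 3) + 3 + 10 * (n + 2) ^ c + 100 ≤ M := by
    have h6 := big (a := c) hM (4 * k + 145) (by omega)
    have h7 : 4 * k + 145 ≤ 2 ^ (4 * k + 145) := (Nat.lt_two_pow_self).le
    have h8 : (4 * k + 145) * (n + 2) ^ c ≤ M := (Nat.mul_le_mul_right _ h7).trans h6
    nlinarith
  have h6 : ∀ v, Sq F M [] (or (OR ((subs (Wk k) n).map fun N =>
      allof n (fun y => Adj k n m v y) N))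
      (OR ((subsLt (Wk k) n).map fun N => exactly n (fun y => Adj k n m v y) N))) eS := by
    intro v
    refine h3 n M (fun y => Adj k n m v y) ((n + 2) ^ c) hG (fun y _ => hB.adj v y) ?_
    have h7 := big (a := KS + c) hM 1 (by omega)
    rw [pow_add] at h7
    have h8 := pw_pos n KS
    nlinarith
  exact final hG hB hM1 h4 h5 h6 hT

end Pool.Agent.Y528.KL
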